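import Pool.Agent.MP_560646_mp.VnDefs

namespace Pool.Agent.MP_560646_mp

/-- The sandwiched conditional Renyi entropy, which is the von Neumann one at order 1. -/
noncomputable def Hall {a n : Type} [Fintype a] [DecidableEq a] [Fintype n] [DecidableEq n]
    (α : ℝ) (ρ : Matrix (a × n) (a × n) ℂ) : ℝ :=
  if α = 1 then Hvn ρ else Hdown α ρ

/-- The binary Renyi entropy, which is the binary Shannon entropy at order 1. -/
noncomputable def hall (α p : ℝ) : ℝ := if α = 1 then Real.binEntropy p else binH α p

/-- Its inverse on the interval from 0 to 1/2. -/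
noncomputable def gall (α : ℝ) : ℝ → ℝ := Function.invFunOn (hall α) (Set.Icc 0 (1 / 2))

/-- The conjectured bound. -/
noncomputable def Fall (α H₁ H₂ : ℝ) : ℝ :=
  if H₁ + H₂ ≤ Real.log 2 then hall α (bconv (gall α H₁) (gall α H₂))
  else H₁ + H₂ - Real.log 2 +
    hall α (bconv (gall α (Real.log 2 - H₁)) (gall α (Real.log 2 - H₂)))

end Pool.Agent.MP_560646_mp
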