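import Mathlib

namespace Pool.Agent.MP_560646_mp

open Matrix Kronecker

/-- Real power of a Hermitian matrix by functional calculus; since `0 ^ t = 0` for `t ≠ 0`,
negative powers are taken on the support. -/
noncomputable def mpow {n : Type} [Fintype n] [DecidableEq n] (ρ : Matrix n n ℂ) (t : ℝ) :
    Matrix n n ℂ :=
  cfc (fun x : ℝ => x ^ t) ρ

/-- The marginal on the second factor (trace over the first factor). -/
noncomputable def margB {a n : Type} [Fintype a] (ρ : Matrix (a × n) (a × n) ℂ) :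
    Matrix n n ℂ :=
  Matrix.of fun i j => ∑ x : a, ρ (x, i) (x, j)

/-- The sandwiched conditional Renyi entropy (down arrow), for `α ≠ 1`. -/
noncomputable def Hdown {a n : Type} [Fintype a] [DecidableEq a] [Fintype n] [DecidableEq n]
    (α : ℝ) (ρ : Matrix (a × n) (a × n) ℂ) : ℝ :=
  Real.log (Matrix.trace (mpow
    (((1 : Matrix a a ℂ) ⊗ₖ mpow (margB ρ) ((1 - α) / (2 * α))) * ρ *
      ((1 : Matrix a a ℂ) ⊗ₖ mpow (margB ρ) ((1 - α) / (2 * α)))) α)).re / (1 - α)

/-- The classical-quantum state with uniform input bit. -/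
noncomputable def cq {n : Type} (σ : ZMod 2 → Matrix n n ℂ) :
    Matrix (ZMod 2 × n) (ZMod 2 × n) ℂ :=
  ∑ x : ZMod 2, (1 / 2 : ℂ) • (Matrix.single x x (1 : ℂ) ⊗ₖ σ x)

/-- The combined state on the register of the sum of the bits and both side systems. -/
noncomputable def combine {n m : Type} (σ : ZMod 2 → Matrix n n ℂ) (η : ZMod 2 → Matrix m m ℂ) :
    Matrix (ZMod 2 × (n × m)) (ZMod 2 × (n × m)) ℂ :=
  ∑ a : ZMod 2, ∑ b : ZMod 2, (1 / 4 : ℂ) • (Matrix.single (a + b) (a + b) (1 : ℂ) ⊗ₖ (σ a ⊗ₖ η b))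

/-- Binary Renyi entropy, for `α ≠ 1`. -/
noncomputable def binH (α p : ℝ) : ℝ := Real.log (p ^ α + (1 - p) ^ α) / (1 - α)

/-- Its inverse on the interval from 0 to 1/2. -/
noncomputable def binG (α : ℝ) : ℝ → ℝ := Function.invFunOn (binH α) (Set.Icc 0 (1 / 2))

/-- Binary convolution. -/
def bconv (p q : ℝ) : ℝ := p * (1 - q) + (1 - p) * q

/-- The conjectured bound. -/
noncomputable def bound (α H₁ H₂ : ℝ) : ℝ :=
  if H₁ + H₂ ≤ Real.log 2 then binH α (bconv (binG α H₁) (binG α H₂))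
  else H₁ + H₂ - Real.log 2 +
    binH α (bconv (binG α (Real.log 2 - H₁)) (binG α (Real.log 2 - H₂)))

end Pool.Agent.MP_560646_mp
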