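import Pool.Agent.MP_560646_mp.Defs

namespace Pool.Agent.MP_560646_mp

/-- The von Neumann entropy. -/
noncomputable def vn {n : Type} [Fintype n] [DecidableEq n] (ρ : Matrix n n ℂ) : ℝ :=
  (Matrix.trace (cfc Real.negMulLog ρ)).re

/-- The von Neumann conditional entropy of the first factor given the second. -/
noncomputable def Hvn {a n : Type} [Fintype a] [DecidableEq a] [Fintype n] [DecidableEq n]
    (ρ : Matrix (a × n) (a × n) ℂ) : ℝ :=
  vn ρ - vn (margB ρ)

/-- The inverse of the binary Shannon entropy on the interval from 0 to 1/2. -/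
noncomputable def binG1 : ℝ → ℝ := Function.invFunOn Real.binEntropy (Set.Icc 0 (1 / 2))

/-- The conjectured bound at order one. -/
noncomputable def bound1 (H₁ H₂ : ℝ) : ℝ :=
  if H₁ + H₂ ≤ Real.log 2 then Real.binEntropy (bconv (binG1 H₁) (binG1 H₂))
  else H₁ + H₂ - Real.log 2 +
    Real.binEntropy (bconv (binG1 (Real.log 2 - H₁)) (binG1 (Real.log 2 - H₂)))

end Pool.Agent.MP_560646_mp
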